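import Mathlib

set_option autoImplicit false

/-!
# Arc-disjoint cycles in 4-regular digraphs: statements of the leaves
-/

namespace Pool.Agent.N5.AM

/-- out-neighbours -/
def O {V : Type} [DecidableEq V] (E : Finset (V × V)) (v : V) : Finset V :=
  (E.filter (fun e => e.1 = v)).image Prod.snd

/-- in-neighbours -/
def I {V : Type} [DecidableEq V] (E : Finset (V × V)) (v : V) : Finset V :=
  (E.filter (fun e => e.2 = v)).image Prod.fst

theorem mem_O {V : Type} [DecidableEq V] {E : Finset (V × V)} {v y : V} :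
    y ∈ O E v ↔ (v, y) ∈ E := by
  unfold O
  simp only [Finset.mem_image, Finset.mem_filter]
  constructor
  · rintro ⟨⟨a, b⟩, ⟨h1, h2⟩, h3⟩
    simp only at h2 h3
    subst h2 h3
    exact h1
  · intro h
    exact ⟨(v, y), ⟨h, rfl⟩, rfl⟩

theorem mem_I {V : Type} [DecidableEq V] {E : Finset (V × V)} {v x : V} :
    x ∈ I E v ↔ (x, v) ∈ E := by
  unfold I
  simp only [Finset.mem_image, Finset.mem_filter]
  constructor
  · rintro ⟨⟨a, b⟩, ⟨h1, h2⟩, h3⟩
    simp only at h2 h3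
    subst h2 h3
    exact h1
  · intro h
    exact ⟨(x, v), ⟨h, rfl⟩, rfl⟩

/-- loopless, in-degree = out-degree everywhere -/
def Eul {V : Type} [DecidableEq V] (E : Finset (V × V)) : Prop :=
  (∀ v, (v, v) ∉ E) ∧ ∀ v, (O E v).card = (I E v).card

/-- excess of out-arcs over in-arcs -/
def exc {V : Type} [DecidableEq V] (F : Finset (V × V)) (u : V) : ℤ :=
  ∑ e ∈ F, ((if e.1 = u then (1 : ℤ) else 0) - (if e.2 = u then (1 : ℤ) else 0))

/-- `m` disjoint nonempty balanced sets of arcs -/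
def Pack {V : Type} [DecidableEq V] (E : Finset (V × V)) (m : ℕ) : Prop :=
  ∃ F : Fin m → Finset (V × V), (∀ i, F i ⊆ E ∧ (F i).Nonempty ∧ ∀ u, exc (F i) u = 0) ∧
    ∀ i j, i ≠ j → Disjoint (F i) (F j)

/-- `v` can be split off -/
def Good {V : Type} [DecidableEq V] (E : Finset (V × V)) (v : V) : Prop :=
  ∃ π : V → V, Set.BijOn π (I E v) (O E v) ∧ ∀ x ∈ I E v, π x = x ∨ (x, π x) ∉ E

/-- obstruction to splitting off `v` -/
def Obs {V : Type} [DecidableEq V] (E : Finset (V × V)) (v : V) : Prop :=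
  ∃ A B : Finset V, A ⊆ I E v ∧ B ⊆ O E v ∧ (∀ a ∈ A, ∀ b ∈ B, (a, b) ∈ E) ∧
    (O E v).card + 1 = A.card + B.card

/-- Hall: leaf HALL -/
def S_Hall : Prop := ∀ (V : Type) [DecidableEq V] (E : Finset (V × V)) (v : V),
  Eul E → ¬ Good E v → Obs E v

/-- leaf LOCP: the case |A| = 2, |B| = 3 for maximal degree 4 cannot be everywhere -/
def S_LocP : Prop := ∀ (V : Type) [DecidableEq V] (E : Finset (V × V)),
  Eul E → (∀ v, (O E v).card ≤ 4) → (∀ v, (O E v).card = 4 → Obs E v) →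
    ∀ (v : V) (A B : Finset V), (O E v).card = 4 → A ⊆ I E v → B ⊆ O E v →
      (∀ a ∈ A, ∀ b ∈ B, (a, b) ∈ E) → A.card = 2 → B.card = 3 → False

/-- leaf LOC -/
def S_Loc : Prop := ∀ (V : Type) [DecidableEq V] (E : Finset (V × V)) (D : ℕ),
  Eul E → D ≤ 4 → (∀ v, (O E v).card ≤ D) → (∃ v, (O E v).card = D) →
    ∃ v, (O E v).card = D ∧ ¬ Obs E v

/-- leaf DEG: the digraph after splitting off `v` -/
def S_Deg : Prop := ∀ (V : Type) [DecidableEq V] (E : Finset (V × V)) (v : V) (π : V → V),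
  Eul E → Set.BijOn π (I E v) (O E v) → (∀ x ∈ I E v, π x = x ∨ (x, π x) ∉ E) →
    Eul (E.filter (fun e => e.1 ≠ v ∧ e.2 ≠ v) ∪
      ((I E v).filter (fun x => π x ≠ x)).image (fun x => (x, π x))) ∧
    (∀ u, u ≠ v → (O (E.filter (fun e => e.1 ≠ v ∧ e.2 ≠ v) ∪
      ((I E v).filter (fun x => π x ≠ x)).image (fun x => (x, π x))) u).card +
        (if u ∈ (I E v).filter (fun x => π x = x) then 1 else 0) = (O E u).card)

/-- leaf LIFT: packings of the digraph after splitting off `v` are lifted -/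
def S_Lift : Prop := ∀ (V : Type) [DecidableEq V] (E : Finset (V × V)) (v : V) (π : V → V) (m : ℕ),
  Eul E → Set.BijOn π (I E v) (O E v) → (∀ x ∈ I E v, π x = x ∨ (x, π x) ∉ E) →
    Pack (E.filter (fun e => e.1 ≠ v ∧ e.2 ≠ v) ∪
      ((I E v).filter (fun x => π x ≠ x)).image (fun x => (x, π x))) m →
    Pack E (m + ((I E v).filter (fun x => π x = x)).card)

/-- leaf MAIN: the induction -/
def S_Main : Prop := ∀ (V : Type) [DecidableEq V] (U : Finset V) (E : Finset (V × V)) (m : ℕ),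
  Eul E → (∀ e ∈ E, e.1 ∈ U ∧ e.2 ∈ U) → (∀ v, (O E v).card ≤ 4) →
    (∀ r : V → ℕ, Set.InjOn r U → (∀ u ∈ U, r u < U.card) →
      m ≤ ∑ u ∈ U, ((O E u).card - r u)) → Pack E m

/-- a directed cycle, as the list of its vertices, with all its arcs in `F` -/
def Cyc {V : Type} (F : V → V → Prop) (l : List V) : Prop :=
  2 ≤ l.length ∧ l.Nodup ∧ ∀ p ∈ l.zip (l.rotate 1), F p.1 p.2

/-- leaf CYC: a nonempty balanced set of arcs without loops contains a directed cycle -/
def S_Cyc : Prop := ∀ (V : Type) [DecidableEq V] (F : Finset (V × V)),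
  (∀ v, (v, v) ∉ F) → F.Nonempty → (∀ u, exc F u = 0) →
    ∃ l : List V, Cyc (fun x y => (x, y) ∈ F) l

end Pool.Agent.N5.AM
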