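import Mathlib
import Pool.Agent.N5.AM.Stm

set_option autoImplicit false

/-!
# Leaf DEG of project AM (helper5), proved by helper669: degrees after splitting off a vertex
-/

namespace Pool.Agent.N5.AM.Deg

open Pool.Agent.N5.AM

variable {V : Type} [DecidableEq V]

/-- the digraph after splitting off `v` -/
def Sp (E : Finset (V × V)) (v : V) (π : V → V) : Finset (V × V) :=
  E.filter (fun e => e.1 ≠ v ∧ e.2 ≠ v) ∪
    ((I E v).filter (fun x => π x ≠ x)).image (fun x => (x, π x))

theorem mem_Sp {E : Finset (V × V)} {v : V} {π : V → V} {a b : V} :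
    (a, b) ∈ Sp E v π ↔ ((a, b) ∈ E ∧ a ≠ v ∧ b ≠ v) ∨ ((a, v) ∈ E ∧ π a ≠ a ∧ b = π a) := by
  unfold Sp
  rw [Finset.mem_union, Finset.mem_filter, Finset.mem_image]
  constructor
  · rintro (h | ⟨x, hx, hxe⟩)
    · exact Or.inl h
    · rw [Finset.mem_filter, mem_I] at hx
      obtain ⟨h1, h2⟩ := Prod.mk.inj hxe
      subst h1
      exact Or.inr ⟨hx.1, hx.2, h2.symm⟩
  · rintro (h | ⟨h1, h2, h3⟩)
    · exact Or.inl h
    · refine Or.inr ⟨a, ?_, ?_⟩
      · rw [Finset.mem_filter, mem_I]; exact ⟨h1, h2⟩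
      · rw [h3]

theorem outc {E : Finset (V × V)} {v : V} {π : V → V}
    (hm : ∀ x, (x, v) ∈ E → (v, π x) ∈ E)
    (hp : ∀ x, (x, v) ∈ E → π x = x ∨ (x, π x) ∉ E) {u : V} (hu : u ≠ v) :
    (O (Sp E v π) u).card + (if (u, v) ∈ E ∧ π u = u then 1 else 0) = (O E u).card := by
  by_cases h1 : (u, v) ∈ E
  · have hv : v ∈ O E u := mem_O.2 h1
    have hpos : 0 < (O E u).card := Finset.card_pos.2 ⟨v, hv⟩
    by_cases h2 : π u = u
    · rw [if_pos ⟨h1, h2⟩]
      have e : O (Sp E v π) u = (O E u).erase v := by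
        ext y
        rw [mem_O, mem_Sp, Finset.mem_erase, mem_O]
        constructor
        · rintro (h | h)
          · exact ⟨h.2.2, h.1⟩
          · exact absurd h2 h.2.1
        · rintro ⟨h3, h4⟩
          exact Or.inl ⟨h4, hu, h3⟩
      rw [e, Finset.card_erase_of_mem hv]
      omega
    · rw [if_neg (fun h => h2 h.2)]
      have h3 : (u, π u) ∉ E := (hp u h1).resolve_left h2
      have e : O (Sp E v π) u = insert (π u) ((O E u).erase v) := by
        ext y
        rw [mem_O, mem_Sp, Finset.mem_insert, Finset.mem_erase, mem_O]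
        constructor
        · rintro (h | h)
          · exact Or.inr ⟨h.2.2, h.1⟩
          · exact Or.inl h.2.2
        · rintro (h | ⟨h5, h4⟩)
          · exact Or.inr ⟨h1, h2, h⟩
          · exact Or.inl ⟨h4, hu, h5⟩
      have h4 : π u ∉ (O E u).erase v := by
        rw [Finset.mem_erase, mem_O]
        exact fun h => h3 h.2
      rw [e, Finset.card_insert_of_notMem h4, Finset.card_erase_of_mem hv]
      omega
  · rw [if_neg (fun h => h1 h.1), add_zero]
    congr 1
    ext y
    rw [mem_O, mem_Sp, mem_O]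
    constructor
    · rintro (h | h)
      · exact h.1
      · exact absurd h.1 h1
    · intro h
      refine Or.inl ⟨h, hu, ?_⟩
      rintro rfl
      exact h1 h

theorem inc {E : Finset (V × V)} {v : V} {π : V → V}
    (hm : ∀ x, (x, v) ∈ E → (v, π x) ∈ E)
    (hi : ∀ x y, (x, v) ∈ E → (y, v) ∈ E → π x = π y → x = y)
    (hs : ∀ y, (v, y) ∈ E → ∃ x, (x, v) ∈ E ∧ π x = y)
    (hp : ∀ x, (x, v) ∈ E → π x = x ∨ (x, π x) ∉ E) {u : V} (hu : u ≠ v) :
    (I (Sp E v π) u).card + (if (u, v) ∈ E ∧ π u = u then 1 else 0) = (I E u).card := by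
  by_cases h1 : (v, u) ∈ E
  · have hv : v ∈ I E u := mem_I.2 h1
    have hpos : 0 < (I E u).card := Finset.card_pos.2 ⟨v, hv⟩
    obtain ⟨x, hx, hxu⟩ := hs u h1
    by_cases h2 : x = u
    · subst h2
      rw [if_pos ⟨hx, hxu⟩]
      have e : I (Sp E v π) x = (I E x).erase v := by
        ext y
        rw [mem_I, mem_Sp, Finset.mem_erase, mem_I]
        constructor
        · rintro (h | h)
          · exact ⟨h.2.1, h.1⟩
          · have : x = y := hi x y hx h.1 (by rw [hxu, ← h.2.2])
            subst this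
            exact absurd hxu h.2.1
        · rintro ⟨h3, h4⟩
          exact Or.inl ⟨h4, h3, hu⟩
      rw [e, Finset.card_erase_of_mem hv]
      omega
    · have h6 : ¬ ((u, v) ∈ E ∧ π u = u) := by
        rintro ⟨h3, h4⟩
        exact h2 (hi x u hx h3 (by rw [hxu, h4]))
      rw [if_neg h6]
      have h3 : (x, u) ∉ E := by
        have := (hp x hx).resolve_left (by rw [hxu]; exact fun h => h2 h.symm)
        rwa [hxu] at this
      have e : I (Sp E v π) u = insert x ((I E u).erase v) := by
        ext y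
        rw [mem_I, mem_Sp, Finset.mem_insert, Finset.mem_erase, mem_I]
        constructor
        · rintro (h | h)
          · exact Or.inr ⟨h.2.1, h.1⟩
          · exact Or.inl (hi y x h.1 hx (by rw [hxu, ← h.2.2]))
        · rintro (h | ⟨h5, h4⟩)
          · subst h
            exact Or.inr ⟨hx, by rw [hxu]; exact fun h => h2 h.symm, hxu.symm⟩
          · exact Or.inl ⟨h4, h5, hu⟩
      have h4 : x ∉ (I E u).erase v := by
        rw [Finset.mem_erase, mem_I]
        exact fun h => h3 h.2
      rw [e, Finset.card_insert_of_notMem h4, Finset.card_erase_of_mem hv]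
      omega
  · have h6 : ¬ ((u, v) ∈ E ∧ π u = u) := by
      rintro ⟨h3, h4⟩
      have := hm u h3
      rw [h4] at this
      exact h1 this
    rw [if_neg h6, add_zero]
    congr 1
    ext y
    rw [mem_I, mem_Sp, mem_I]
    constructor
    · rintro (h | h)
      · exact h.1
      · have := hm y h.1
        rw [← h.2.2] at this
        exact absurd this h1
    · intro h
      refine Or.inl ⟨h, ?_, hu⟩
      rintro rfl
      exact h1 h

theorem t_DEG : Pool.Agent.N5.AM.S_Deg := by
  intro V _ E v π hE hπ hp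
  have hl := hE.1
  have hm : ∀ x, (x, v) ∈ E → (v, π x) ∈ E := fun x hx =>
    mem_O.1 (Finset.mem_coe.1 (hπ.mapsTo (Finset.mem_coe.2 (mem_I.2 hx))))
  have hi : ∀ x y, (x, v) ∈ E → (y, v) ∈ E → π x = π y → x = y := fun x y hx hy h =>
    hπ.injOn (Finset.mem_coe.2 (mem_I.2 hx)) (Finset.mem_coe.2 (mem_I.2 hy)) h
  have hs : ∀ y, (v, y) ∈ E → ∃ x, (x, v) ∈ E ∧ π x = y := by
    intro y hy
    obtain ⟨x, hx, hxy⟩ := hπ.surjOn (Finset.mem_coe.2 (mem_O.2 hy))
    exact ⟨x, mem_I.1 (Finset.mem_coe.1 hx), hxy⟩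
  have hp' : ∀ x, (x, v) ∈ E → π x = x ∨ (x, π x) ∉ E := fun x hx => hp x (mem_I.2 hx)
  have key : ∀ u, u ≠ v → (O (Sp E v π) u).card +
      (if (u, v) ∈ E ∧ π u = u then 1 else 0) = (O E u).card := fun u hu => outc hm hp' hu
  have key2 : ∀ u, u ≠ v → (I (Sp E v π) u).card +
      (if (u, v) ∈ E ∧ π u = u then 1 else 0) = (I E u).card := fun u hu =>
    inc hm hi hs hp' hu
  show Eul (Sp E v π) ∧ ∀ u, u ≠ v → (O (Sp E v π) u).card +
    (if u ∈ (I E v).filter (fun x => π x = x) then 1 else 0) = (O E u).card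
  refine ⟨⟨?_, ?_⟩, ?_⟩
  · intro u hu
    rw [mem_Sp] at hu
    rcases hu with h | h
    · exact hl u h.1
    · exact h.2.1 h.2.2.symm
  · intro u
    by_cases hu : u = v
    · subst hu
      have e1 : O (Sp E u π) u = ∅ := by
        rw [Finset.eq_empty_iff_forall_notMem]
        intro y hy
        rw [mem_O, mem_Sp] at hy
        rcases hy with h | h
        · exact h.2.1 rfl
        · exact hl u h.1
      have e2 : I (Sp E u π) u = ∅ := by
        rw [Finset.eq_empty_iff_forall_notMem]
        intro y hy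
        rw [mem_I, mem_Sp] at hy
        rcases hy with h | h
        · exact h.2.2 rfl
        · have := hm y h.1
          rw [← h.2.2] at this
          exact hl u this
      rw [e1, e2]
    · have h1 := key u hu
      have h2 := key2 u hu
      have h3 := hE.2 u
      omega
  · intro u hu
    have h1 := key u hu
    have e : (if u ∈ (I E v).filter (fun x => π x = x) then 1 else 0) =
        (if (u, v) ∈ E ∧ π u = u then 1 else 0 : ℕ) := by
      congr 1
      rw [Finset.mem_filter, mem_I]
    rw [e]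
    exact h1

end Pool.Agent.N5.AM.Deg
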