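import Pool.Agent.N5.AM.Stm

/-!
# AM, leaf LIFT: packings of the digraph after splitting off a vertex are lifted (helper644)
-/

set_option autoImplicit false

namespace Pool.Agent.N5.AM.Lift

open Pool.Agent.N5.AM

theorem pack_of_family {V : Type} [DecidableEq V] {ι : Type} [Fintype ι] (E : Finset (V × V))
    (m : ℕ) (hm : Fintype.card ι = m) (G : ι → Finset (V × V))
    (h1 : ∀ i, G i ⊆ E ∧ (G i).Nonempty ∧ ∀ u, exc (G i) u = 0)
    (h2 : ∀ i j, i ≠ j → Disjoint (G i) (G j)) : Pack E m :=
  ⟨fun k => G ((Fintype.equivFinOfCardEq hm).symm k), fun _ => h1 _, fun _ _ hkl =>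
    h2 _ _ (fun h => hkl ((Fintype.equivFinOfCardEq hm).symm.injective h))⟩

theorem exc_union {V : Type} [DecidableEq V] (A B : Finset (V × V)) (h : Disjoint A B) (u : V) :
    exc (A ∪ B) u = exc A u + exc B u := by
  unfold exc
  exact Finset.sum_union h

theorem t_LIFT : S_Lift := by
  intro V _ E v π m hE hb hN hP
  obtain ⟨F, hF1, hF2⟩ := hP
  have hne : ∀ x, x ∈ I E v → x ≠ v := by
    intro x hx h
    rw [mem_I, h] at hx
    exact hE.1 v hx
  have hO : ∀ x, x ∈ I E v → (v, π x) ∈ E := by
    intro x hx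
    have := hb.mapsTo (Finset.mem_coe.2 hx)
    exact mem_O.1 (Finset.mem_coe.1 this)
  have hπne : ∀ x, x ∈ I E v → π x ≠ v := by
    intro x hx h
    have := hO x hx
    rw [h] at this
    exact hE.1 v this
  have hinj : ∀ x, x ∈ I E v → ∀ y, y ∈ I E v → π x = π y → x = y := by
    intro x hx y hy h
    exact hb.injOn (Finset.mem_coe.2 hx) (Finset.mem_coe.2 hy) h
  -- the new arcs used by `F i`
  let X : Fin m → Finset V := fun i => (I E v).filter (fun x => π x ≠ x ∧ (x, π x) ∈ F i)
  have hX : ∀ i x, x ∈ X i ↔ x ∈ I E v ∧ π x ≠ x ∧ (x, π x) ∈ F i := by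
    intro i x
    exact Finset.mem_filter
  have hsplit : ∀ i e, e ∈ F i → (e ∈ E ∧ e.1 ≠ v ∧ e.2 ≠ v) ∨
      (e ∉ E ∧ ∃ x, x ∈ X i ∧ (x, π x) = e) := by
    intro i e he
    rcases Finset.mem_union.1 ((hF1 i).1 he) with h | h
    · left
      exact ⟨(Finset.mem_filter.1 h).1, (Finset.mem_filter.1 h).2⟩
    · right
      obtain ⟨x, hx, hxe⟩ := Finset.mem_image.1 h
      obtain ⟨hx1, hx2⟩ := Finset.mem_filter.1 hx
      refine ⟨?_, x, ?_, hxe⟩
      · rw [← hxe]
        exact (hN x hx1).resolve_left hx2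
      · rw [hX]
        refine ⟨hx1, hx2, ?_⟩
        rw [hxe]
        exact he
  let G : Fin m → Finset (V × V) := fun i =>
    (F i).filter (fun e => e ∈ E) ∪ ((X i).image (fun x => (x, v)) ∪
      (X i).image (fun x => (v, π x)))
  have hG : ∀ i e, e ∈ G i → (e ∈ F i ∧ e ∈ E ∧ e.1 ≠ v ∧ e.2 ≠ v) ∨
      (∃ x, x ∈ X i ∧ (x, v) = e) ∨ (∃ x, x ∈ X i ∧ (v, π x) = e) := by
    intro i e he
    rcases Finset.mem_union.1 he with h | h
    · left
      obtain ⟨h1, h2⟩ := Finset.mem_filter.1 h
      rcases hsplit i e h1 with h3 | h3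
      · exact ⟨h1, h3⟩
      · exact absurd h2 h3.1
    · rcases Finset.mem_union.1 h with h | h
      · right; left
        exact Finset.mem_image.1 h
      · right; right
        exact Finset.mem_image.1 h
  have hXI : ∀ i x, x ∈ X i → x ∈ I E v := fun i x hx => ((hX i x).1 hx).1
  have hd1 : ∀ i, Disjoint ((X i).image (fun x => (x, v))) ((X i).image (fun x => (v, π x))) := by
    intro i
    rw [Finset.disjoint_left]
    intro e h1 h2
    obtain ⟨x, hx, hxe⟩ := Finset.mem_image.1 h1
    obtain ⟨y, hy, hye⟩ := Finset.mem_image.1 h2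
    rw [← hye] at hxe
    exact hne x (hXI i x hx) (Prod.mk.inj hxe).1
  have hd2 : ∀ i, Disjoint ((F i).filter (fun e => e ∈ E)) ((X i).image (fun x => (x, v)) ∪
      (X i).image (fun x => (v, π x))) := by
    intro i
    rw [Finset.disjoint_left]
    intro e h1 h2
    obtain ⟨h3, h4⟩ := Finset.mem_filter.1 h1
    rcases hsplit i e h3 with h5 | h5
    · rcases Finset.mem_union.1 h2 with h | h
      · obtain ⟨x, hx, hxe⟩ := Finset.mem_image.1 h
        rw [← hxe] at h5
        exact h5.2.2 rfl
      · obtain ⟨x, hx, hxe⟩ := Finset.mem_image.1 h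
        rw [← hxe] at h5
        exact h5.2.1 rfl
    · exact h5.1 h4
  have hnew : ∀ i, (F i).filter (fun e => ¬ e ∈ E) = (X i).image (fun x => (x, π x)) := by
    intro i
    ext e
    constructor
    · intro h
      obtain ⟨h1, h2⟩ := Finset.mem_filter.1 h
      rcases hsplit i e h1 with h3 | h3
      · exact absurd h3.1 h2
      · exact Finset.mem_image.2 h3.2
    · intro h
      obtain ⟨x, hx, hxe⟩ := Finset.mem_image.1 h
      obtain ⟨h1, h2, h3⟩ := (hX i x).1 hx
      rw [← hxe]
      exact Finset.mem_filter.2 ⟨h3, (hN x h1).resolve_left h2⟩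
  have hexc : ∀ i u, exc (G i) u = exc (F i) u := by
    intro i u
    have e1 : exc (G i) u = exc ((F i).filter (fun e => e ∈ E)) u +
        (exc ((X i).image (fun x => (x, v))) u + exc ((X i).image (fun x => (v, π x))) u) := by
      show exc (_ ∪ (_ ∪ _)) u = _
      rw [exc_union _ _ (hd2 i), exc_union _ _ (hd1 i)]
    have e2 : exc (F i) u = exc ((F i).filter (fun e => e ∈ E)) u +
        exc ((F i).filter (fun e => ¬ e ∈ E)) u := by
      unfold exc
      exact (Finset.sum_filter_add_sum_filter_not _ _ _).symm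
    have e3 : exc ((X i).image (fun x => (x, v))) u =
        ∑ x ∈ X i, ((if x = u then (1 : ℤ) else 0) - (if v = u then (1 : ℤ) else 0)) := by
      unfold exc
      rw [Finset.sum_image]
      intro x _ y _ h
      exact (Prod.mk.inj h).1
    have e4 : exc ((X i).image (fun x => (v, π x))) u =
        ∑ x ∈ X i, ((if v = u then (1 : ℤ) else 0) - (if π x = u then (1 : ℤ) else 0)) := by
      unfold exc
      rw [Finset.sum_image]
      intro x hx y hy h
      exact hinj x (hXI i x hx) y (hXI i y hy) (Prod.mk.inj h).2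
    have e5 : exc ((F i).filter (fun e => ¬ e ∈ E)) u =
        ∑ x ∈ X i, ((if x = u then (1 : ℤ) else 0) - (if π x = u then (1 : ℤ) else 0)) := by
      rw [hnew i]
      unfold exc
      rw [Finset.sum_image]
      intro x _ y _ h
      exact (Prod.mk.inj h).1
    rw [e1, e2, e3, e4, e5, ← Finset.sum_add_distrib]
    congr 1
    refine Finset.sum_congr rfl fun x _ => ?_
    ring
  have hGsub : ∀ i, G i ⊆ E := by
    intro i e he
    rcases hG i e he with h | ⟨x, hx, hxe⟩ | ⟨x, hx, hxe⟩
    · exact h.2.1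
    · rw [← hxe]
      exact mem_I.1 (hXI i x hx)
    · rw [← hxe]
      exact hO x (hXI i x hx)
  have hGne : ∀ i, (G i).Nonempty := by
    intro i
    obtain ⟨e, he⟩ := (hF1 i).2.1
    rcases hsplit i e he with h | ⟨_, x, hx, _⟩
    · exact ⟨e, Finset.mem_union_left _ (Finset.mem_filter.2 ⟨he, h.1⟩)⟩
    · exact ⟨(x, v), Finset.mem_union_right _ (Finset.mem_union_left _
        (Finset.mem_image.2 ⟨x, hx, rfl⟩))⟩
  have hGdis : ∀ i j, i ≠ j → Disjoint (G i) (G j) := by
    intro i j hij
    have hF := Finset.disjoint_left.1 (hF2 i j hij)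
    have hsame : ∀ x, x ∈ X i → x ∈ X j → False := fun x hx hy =>
      hF ((hX i x).1 hx).2.2 ((hX j x).1 hy).2.2
    rw [Finset.disjoint_left]
    intro e he he'
    rcases hG i e he with h | ⟨x, hx, hxe⟩ | ⟨x, hx, hxe⟩
    · rcases hG j e he' with h' | ⟨y, hy, hye⟩ | ⟨y, hy, hye⟩
      · exact hF h.1 h'.1
      · rw [← hye] at h
        exact h.2.2.2 rfl
      · rw [← hye] at h
        exact h.2.2.1 rfl
    · rcases hG j e he' with h' | ⟨y, hy, hye⟩ | ⟨y, hy, hye⟩
      · rw [← hxe] at h'
        exact h'.2.2.2 rfl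
      · rw [← hye] at hxe
        have := (Prod.mk.inj hxe).1
        rw [← this] at hy
        exact hsame x hx hy
      · rw [← hye] at hxe
        exact hne x (hXI i x hx) (Prod.mk.inj hxe).1
    · rcases hG j e he' with h' | ⟨y, hy, hye⟩ | ⟨y, hy, hye⟩
      · rw [← hxe] at h'
        exact h'.2.2.1 rfl
      · rw [← hye] at hxe
        exact hne y (hXI j y hy) (Prod.mk.inj hxe).1.symm
      · rw [← hye] at hxe
        have := hinj x (hXI i x hx) y (hXI j y hy) (Prod.mk.inj hxe).2
        rw [← this] at hy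
        exact hsame x hx hy
  -- the digons
  let D : {x // x ∈ (I E v).filter (fun x => π x = x)} → Finset (V × V) := fun x =>
    {(x.1, v), (v, x.1)}
  have hL : ∀ x : {x // x ∈ (I E v).filter (fun x => π x = x)}, x.1 ∈ I E v ∧ π x.1 = x.1 :=
    fun x => (Finset.mem_filter (p := fun x => π x = x)).1 x.2
  have hD : ∀ x e, e ∈ D x → (x.1, v) = e ∨ (v, x.1) = e := by
    intro x e he
    rcases Finset.mem_insert.1 he with h | h
    · exact Or.inl h.symm
    · exact Or.inr (Finset.mem_singleton.1 h).symm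
  have hDsub : ∀ x, D x ⊆ E := by
    intro x e he
    rcases hD x e he with h | h
    · rw [← h]
      exact mem_I.1 (hL x).1
    · rw [← h]
      have := hO x.1 (hL x).1
      rw [(hL x).2] at this
      exact this
  have hDexc : ∀ x u, exc (D x) u = 0 := by
    intro x u
    have hx : (x.1, v) ≠ (v, x.1) := fun h => hne x.1 (hL x).1 (Prod.mk.inj h).1
    show exc {(x.1, v), (v, x.1)} u = 0
    unfold exc
    rw [Finset.sum_pair hx]
    ring
  have hDdis : ∀ x y, x ≠ y → Disjoint (D x) (D y) := by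
    intro x y hxy
    rw [Finset.disjoint_left]
    intro e he he'
    rcases hD x e he with h | h
    · rcases hD y e he' with h' | h'
      · rw [← h'] at h
        exact hxy (Subtype.ext (Prod.mk.inj h).1)
      · rw [← h'] at h
        exact hne x.1 (hL x).1 (Prod.mk.inj h).1
    · rcases hD y e he' with h' | h'
      · rw [← h'] at h
        exact hne y.1 (hL y).1 (Prod.mk.inj h).1.symm
      · rw [← h'] at h
        exact hxy (Subtype.ext (Prod.mk.inj h).2)
  have hGD : ∀ i x, Disjoint (G i) (D x) := by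
    intro i x
    rw [Finset.disjoint_left]
    intro e he he'
    rcases hG i e he with h | ⟨y, hy, hye⟩ | ⟨y, hy, hye⟩
    · rcases hD x e he' with h' | h'
      · rw [← h'] at h
        exact h.2.2.2 rfl
      · rw [← h'] at h
        exact h.2.2.1 rfl
    · rcases hD x e he' with h' | h'
      · rw [← h'] at hye
        have h1 := (Prod.mk.inj hye).1
        rw [h1] at hy
        exact ((hX i x.1).1 hy).2.1 (hL x).2
      · rw [← h'] at hye
        exact hne y (hXI i y hy) (Prod.mk.inj hye).1
    · rcases hD x e he' with h' | h'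
      · rw [← h'] at hye
        exact hne x.1 (hL x).1 (Prod.mk.inj hye).1.symm
      · rw [← h'] at hye
        have h1 : π y = π x.1 := by
          rw [(hL x).2]
          exact (Prod.mk.inj hye).2
        have h2 := hinj y (hXI i y hy) x.1 (hL x).1 h1
        rw [h2] at hy
        exact ((hX i x.1).1 hy).2.1 (hL x).2
  refine pack_of_family (ι := Fin m ⊕ {x // x ∈ (I E v).filter (fun x => π x = x)}) E _ ?_
    (Sum.elim G D) ?_ ?_
  · rw [Fintype.card_sum, Fintype.card_fin, Fintype.card_coe]
  · rintro (i | x)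
    · exact ⟨hGsub i, hGne i, fun u => by
        show exc (G i) u = 0
        rw [hexc i u]
        exact (hF1 i).2.2 u⟩
    · exact ⟨hDsub x, ⟨(x.1, v), Finset.mem_insert_self _ _⟩, hDexc x⟩
  · rintro (i | x) (j | y) h
    · exact hGdis i j (fun hij => h (by rw [hij]))
    · exact hGD i y
    · exact (hGD j x).symm
    · exact hDdis x y (fun hij => h (by rw [hij]))

end Pool.Agent.N5.AM.Lift
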