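import Pool.Agent.N5.AM.Stm

set_option autoImplicit false

/-!
# Leaf LOCP: the case `|A| = 2`, `|B| = 3` for maximal degree 4 cannot be everywhere
-/

namespace Pool.Agent.N5.AM.LocP

open Pool.Agent.N5.AM

variable {V : Type} [DecidableEq V] {E : Finset (V × V)}

/-- the out-neighbourhoods of `x` and `x'` are `{v} ∪ B` -/
structure PT (E : Finset (V × V)) (v x x' : V) (B : Finset V) : Prop where
  ne : x ≠ x'
  ox : O E x = insert v B
  ox' : O E x' = insert v B
  nv : v ∉ B
  sub : B ⊆ O E v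
  card : B.card = 3

theorem pt_of (hL : ∀ v, (v, v) ∉ E) (h4 : ∀ v, (O E v).card ≤ 4) (v : V) (A B : Finset V)
    (hA : A ⊆ I E v) (hB : B ⊆ O E v) (hAB : ∀ a ∈ A, ∀ b ∈ B, (a, b) ∈ E)
    (hA2 : A.card = 2) (hB3 : B.card = 3) : ∃ x x', x ∈ A ∧ x' ∈ A ∧ PT E v x x' B := by
  obtain ⟨x, x', hne, rfl⟩ := Finset.card_eq_two.1 hA2
  have hv : v ∉ B := fun h => hL v (mem_O.1 (hB h))
  have key : ∀ a ∈ ({x, x'} : Finset V), O E a = insert v B := by
    intro a ha
    symm
    apply Finset.eq_of_subset_of_card_le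
    · intro y hy
      rcases Finset.mem_insert.1 hy with rfl | hy
      · exact mem_O.2 (mem_I.1 (hA ha))
      · exact mem_O.2 (hAB a ha y hy)
    · rw [Finset.card_insert_of_notMem hv, hB3]
      exact h4 a
  exact ⟨x, x', by simp, by simp, hne, key x (by simp), key x' (by simp), hv, hB, hB3⟩

theorem split (hL : ∀ v, (v, v) ∉ E) (hE : ∀ v, (O E v).card = (I E v).card)
    (h4 : ∀ v, (O E v).card ≤ 4) (x : V) (hx : (O E x).card = 4) (A B : Finset V)
    (hA : A ⊆ I E x) (hB : B ⊆ O E x) (hAB : ∀ a ∈ A, ∀ b ∈ B, (a, b) ∈ E)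
    (hc : (O E x).card + 1 = A.card + B.card) :
    (A.card = 2 ∧ B.card = 3) ∨ (A.card = 3 ∧ B.card = 2) := by
  have a1 : A.card ≤ 4 := by
    have := Finset.card_le_card hA
    have := hE x
    omega
  have b1 : B.card ≤ 4 := by
    have := Finset.card_le_card hB
    omega
  obtain ⟨a, ha⟩ : A.Nonempty := Finset.card_pos.1 (by omega)
  obtain ⟨b, hb⟩ : B.Nonempty := Finset.card_pos.1 (by omega)
  have hxB : x ∉ B := fun h => hL x (mem_O.1 (hB h))
  have hxA : x ∉ A := fun h => hL x (mem_I.1 (hA h))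
  have b2 : B.card ≤ 3 := by
    have h : insert x B ⊆ O E a := by
      intro y hy
      rcases Finset.mem_insert.1 hy with rfl | hy
      · exact mem_O.2 (mem_I.1 (hA ha))
      · exact mem_O.2 (hAB a ha y hy)
    have h1 := Finset.card_le_card h
    rw [Finset.card_insert_of_notMem hxB] at h1
    have := h4 a
    omega
  have a2 : A.card ≤ 3 := by
    have h : insert x A ⊆ I E b := by
      intro y hy
      rcases Finset.mem_insert.1 hy with rfl | hy
      · exact mem_I.2 (mem_O.1 (hB hb))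
      · exact mem_I.2 (hAB y hy b hb)
    have h1 := Finset.card_le_card h
    rw [Finset.card_insert_of_notMem hxA] at h1
    have := h4 b
    have := hE b
    omega
  omega

theorem step (hL : ∀ v, (v, v) ∉ E) (hE : ∀ v, (O E v).card = (I E v).card)
    (h4 : ∀ v, (O E v).card ≤ 4) (hO : ∀ v, (O E v).card = 4 → Obs E v) {v x x' : V}
    {B : Finset V} (h : PT E v x x' B) : ∃ z z' C, PT E x z z' C := by
  have hx : (O E x).card = 4 := by
    rw [h.ox, Finset.card_insert_of_notMem h.nv, h.card]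
  obtain ⟨A', B', hA, hB, hAB, hc⟩ := hO x hx
  rcases split hL hE h4 x hx A' B' hA hB hAB hc with ⟨h2, h3⟩ | ⟨h3, h2⟩
  · obtain ⟨z, z', _, _, hz⟩ := pt_of hL h4 x A' B' hA hB hAB h2 h3
    exact ⟨z, z', B', hz⟩
  · exfalso
    obtain ⟨y, hy⟩ : B'.Nonempty := Finset.card_pos.1 (by omega)
    have hxA : x ∉ A' := fun h => hL x (mem_I.1 (hA h))
    have hI : insert x A' = I E y := by
      apply Finset.eq_of_subset_of_card_le
      · intro w hw
        rcases Finset.mem_insert.1 hw with rfl | hw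
        · exact mem_I.2 (mem_O.1 (hB hy))
        · exact mem_I.2 (hAB w hw y hy)
      · rw [Finset.card_insert_of_notMem hxA, h3, ← hE]
        exact h4 y
    have hoo : O E x = O E x' := h.ox.trans h.ox'.symm
    have h1 : x' ∈ I E y := by
      have : y ∈ O E x' := hoo ▸ hB hy
      exact mem_I.2 (mem_O.1 this)
    rw [← hI] at h1
    rcases Finset.mem_insert.1 h1 with h1 | h1
    · exact h.ne h1.symm
    · have h5 : x ∈ O E x' := mem_O.2 (mem_I.1 (hA h1))
      rw [← hoo] at h5
      exact hL x (mem_O.1 h5)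

theorem t_LOCP : S_LocP := by
  intro V _ E hEul h4 hO v A B hv hA hB hAB hA2 hB3
  obtain ⟨hL, hE⟩ := hEul
  obtain ⟨v1, v1', -, -, p0⟩ := pt_of hL h4 v A B hA hB hAB hA2 hB3
  obtain ⟨v2, v2', B1, p1⟩ := step hL hE h4 hO p0
  obtain ⟨v3, v3', B2, p2⟩ := step hL hE h4 hO p1
  have o1 : O E v1 = O E v1' := p0.ox.trans p0.ox'.symm
  have o2 : O E v2 = O E v2' := p1.ox.trans p1.ox'.symm
  have n1 : v1 ∉ O E v1 := fun h => hL _ (mem_O.1 h)
  have n2 : v2 ∉ O E v2 := fun h => hL _ (mem_O.1 h)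
  have n1' : v1' ∉ O E v1' := fun h => hL _ (mem_O.1 h)
  have n2' : v2' ∉ O E v2' := fun h => hL _ (mem_O.1 h)
  have m1 : v1 ∈ O E v2 := by rw [p1.ox]; simp
  have m2 : v2 ∈ O E v3 := by rw [p2.ox]; simp
  have d12 : O E v1 ≠ O E v2 := fun h => n1 (h ▸ m1)
  have d32 : O E v3 ≠ O E v2 := fun h => n2 (h ▸ m2)
  have s1 : B1 ⊆ O E v1 := p1.sub
  have s2 : B1 ⊆ O E v2 := by rw [p1.ox]; exact Finset.subset_insert _ _
  -- the set `K`
  have e12 : v1 ≠ v2 := fun h => d12 (by rw [h])
  have e12' : v1 ≠ v2' := fun h => d12 (by rw [h, o2])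
  have e1'2 : v1' ≠ v2 := fun h => d12 (by rw [o1, h])
  have e1'2' : v1' ≠ v2' := fun h => d12 (by rw [o1, h, o2])
  have e11 : v1 ≠ v1' := p0.ne
  have e22 : v2 ≠ v2' := p1.ne
  obtain ⟨K, hK⟩ : ∃ K : Finset V, K = {v1, v1', v2, v2'} := ⟨_, rfl⟩
  have hKc : K.card = 4 := by
    rw [hK, Finset.card_insert_of_notMem (by simp [e11, e12, e12']),
      Finset.card_insert_of_notMem (by simp [e1'2, e1'2']),
      Finset.card_insert_of_notMem (by simp [e22]), Finset.card_singleton]
  have hKI : ∀ y, y ∈ O E v1 → y ∈ O E v2 → I E y = K := by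
    intro y h1 h2
    symm
    apply Finset.eq_of_subset_of_card_le
    · intro w hw
      rw [hK] at hw
      simp only [Finset.mem_insert, Finset.mem_singleton] at hw
      rcases hw with rfl | rfl | rfl | rfl
      · exact mem_I.2 (mem_O.1 h1)
      · exact mem_I.2 (mem_O.1 (o1 ▸ h1))
      · exact mem_I.2 (mem_O.1 h2)
      · exact mem_I.2 (mem_O.1 (o2 ▸ h2))
    · rw [hKc, ← hE]
      exact h4 y
  -- a common element
  obtain ⟨y, hy2, hy1⟩ : ∃ y ∈ B2, y ∈ B1 := by
    have hc : 0 < (B2.erase v1).card := by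
      have := Finset.pred_card_le_card_erase (s := B2) (a := v1)
      have := p2.card
      omega
    obtain ⟨y, hy⟩ := Finset.card_pos.1 hc
    have h1 : y ∈ B2 := Finset.mem_of_mem_erase hy
    have h2 : y ≠ v1 := Finset.ne_of_mem_erase hy
    have h3 : y ∈ O E v2 := p2.sub h1
    rw [p1.ox] at h3
    rcases Finset.mem_insert.1 h3 with h3 | h3
    · exact absurd h3 h2
    · exact ⟨y, h1, h3⟩
  have hy3 : y ∈ O E v3 := by rw [p2.ox]; exact Finset.mem_insert_of_mem hy2
  have hv3 : v3 ∈ K := by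
    rw [← hKI y (s1 hy1) (s2 hy1)]
    exact mem_I.2 (mem_O.1 hy3)
  have h31 : O E v3 = O E v1 := by
    rw [hK] at hv3
    simp only [Finset.mem_insert, Finset.mem_singleton] at hv3
    rcases hv3 with h | h | h | h
    · rw [h]
    · rw [h, o1]
    · exact absurd (by rw [h]) d32
    · exact absurd (by rw [h, o2]) d32
  have m21 : v2 ∈ O E v1 := h31 ▸ m2
  have b1 : v1 ∉ B1 := fun h => n1 (s1 h)
  have b1' : v1' ∉ B1 := fun h => n1' (o1 ▸ s1 h)
  have b2 : v2 ∉ B1 := fun h => n2 (s2 h)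
  have b2' : v2' ∉ B1 := fun h => n2' (o2 ▸ s2 h)
  have ox1 : O E v1 = insert v2 B1 := by
    symm
    apply Finset.eq_of_subset_of_card_le
    · intro w hw
      rcases Finset.mem_insert.1 hw with rfl | hw
      · exact m21
      · exact s1 hw
    · rw [Finset.card_insert_of_notMem b2, p1.card]
      exact h4 v1
  have hIb : ∀ b ∈ B1, I E b = K := fun b hb => hKI b (s1 hb) (s2 hb)
  have hbK : ∀ b ∈ B1, b ∉ K := by
    intro b hb hbK
    rw [hK] at hbK
    simp only [Finset.mem_insert, Finset.mem_singleton] at hbK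
    rcases hbK with rfl | rfl | rfl | rfl
    · exact b1 hb
    · exact b1' hb
    · exact b2 hb
    · exact b2' hb
  have hOK : ∀ a ∈ K, O E a = insert v2 B1 ∨ O E a = insert v1 B1 := by
    intro a ha
    rw [hK] at ha
    simp only [Finset.mem_insert, Finset.mem_singleton] at ha
    rcases ha with rfl | rfl | rfl | rfl
    · exact Or.inl ox1
    · exact Or.inl (o1 ▸ ox1)
    · exact Or.inr p1.ox
    · exact Or.inr p1.ox'
  -- step 3
  obtain ⟨b, hb⟩ : B1.Nonempty := Finset.card_pos.1 (by rw [p1.card]; omega)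
  have hbc : (O E b).card = 4 := by rw [hE, hIb b hb, hKc]
  obtain ⟨A', B', hA', hB', hAB', hc⟩ := hO b hbc
  have hbB' : b ∉ B' := fun h => hL b (mem_O.1 (hB' h))
  rcases split hL hE h4 b hbc A' B' hA' hB' hAB' hc with ⟨h2, h3⟩ | ⟨h3, h2⟩
  · obtain ⟨a, ha⟩ : A'.Nonempty := Finset.card_pos.1 (by omega)
    have hab : insert b B' = O E a := by
      apply Finset.eq_of_subset_of_card_le
      · intro w hw
        rcases Finset.mem_insert.1 hw with rfl | hw
        · exact mem_O.2 (mem_I.1 (hA' ha))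
        · exact mem_O.2 (hAB' a ha w hw)
      · rw [Finset.card_insert_of_notMem hbB', h3]
        exact h4 a
    have haK : a ∈ K := by rw [← hIb b hb]; exact hA' ha
    have hsub : B1 ⊆ O E a := by
      rcases hOK a haK with h | h <;> rw [h] <;> exact Finset.subset_insert _ _
    obtain ⟨b', hb'⟩ : (B1.erase b).Nonempty := Finset.card_pos.1 (by
      rw [Finset.card_erase_of_mem hb, p1.card]; omega)
    have hb1 : b' ∈ B1 := Finset.mem_of_mem_erase hb'
    have hb2 : b' ≠ b := Finset.ne_of_mem_erase hb'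
    have h5 := hsub hb1
    rw [← hab] at h5
    rcases Finset.mem_insert.1 h5 with h5 | h5
    · exact hb2 h5
    · have h6 : b ∈ I E b' := mem_I.2 (mem_O.1 (hB' h5))
      rw [hIb b' hb1] at h6
      exact hbK b hb h6
  · obtain ⟨a, ha⟩ : A'.Nonempty := Finset.card_pos.1 (by omega)
    have haK : a ∈ K := by rw [← hIb b hb]; exact hA' ha
    have hyB : ∀ y ∈ B', y ∉ B1 := by
      intro y hy hy1
      have h6 : b ∈ I E y := mem_I.2 (mem_O.1 (hB' hy))
      rw [hIb y hy1] at h6
      exact hbK b hb h6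
    obtain ⟨y, y', hyy, rfl⟩ := Finset.card_eq_two.1 h2
    have q1 : y ∈ O E a := mem_O.2 (hAB' a ha y (by simp))
    have q2 : y' ∈ O E a := mem_O.2 (hAB' a ha y' (by simp))
    have r1 := hyB y (by simp)
    have r2 := hyB y' (by simp)
    rcases hOK a haK with h | h
    · rw [h] at q1 q2
      rcases Finset.mem_insert.1 q1 with q1 | q1
      · rcases Finset.mem_insert.1 q2 with q2 | q2
        · exact hyy (q1.trans q2.symm)
        · exact r2 q2
      · exact r1 q1
    · rw [h] at q1 q2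
      rcases Finset.mem_insert.1 q1 with q1 | q1
      · rcases Finset.mem_insert.1 q2 with q2 | q2
        · exact hyy (q1.trans q2.symm)
        · exact r2 q2
      · exact r1 q1

end Pool.Agent.N5.AM.LocP
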