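import Mathlib
import Pool.Agent.N5.AM.Stm

/-!
# Arc-disjoint cycles in 4-regular digraphs: the induction (helper424)
-/

set_option autoImplicit false

namespace Pool.Agent.N5.AM.Main

open Pool.Agent.N5.AM

theorem pack_mono {V : Type} [DecidableEq V] {E : Finset (V × V)} {m M : ℕ} (h : m ≤ M)
    (hp : Pack E M) : Pack E m := by
  obtain ⟨F, hF, hd⟩ := hp
  refine ⟨fun i => F (Fin.castLE h i), fun i => hF _, fun i j hij => hd _ _ ?_⟩
  intro he
  exact hij (Fin.castLE_injective h he)

/-- there is a vertex which can be split off -/
theorem ex_good (hH : S_Hall) (hL : S_Loc) {V : Type} [DecidableEq V] {U : Finset V}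
    {E : Finset (V × V)} (hE : Eul E) (hU : ∀ e ∈ E, e.1 ∈ U ∧ e.2 ∈ U)
    (h4 : ∀ v, (O E v).card ≤ 4) (hne : U.Nonempty) : ∃ v ∈ U, Good E v := by
  obtain ⟨w, hwU, hw⟩ := Finset.exists_max_image U (fun v => (O E v).card) hne
  have hout : ∀ v, v ∉ U → O E v = ∅ := by
    intro v hv
    rw [Finset.eq_empty_iff_forall_notMem]
    intro y hy
    exact hv (hU _ (mem_O.1 hy)).1
  have hall : ∀ v, (O E v).card ≤ (O E w).card := by
    intro v
    by_cases hv : v ∈ U
    · exact hw v hv
    · rw [hout v hv, Finset.card_empty]
      exact Nat.zero_le _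
  by_cases h0 : (O E w).card = 0
  · refine ⟨w, hwU, id, ?_, fun x _ => Or.inl rfl⟩
    have h1 : O E w = ∅ := Finset.card_eq_zero.1 h0
    have h2 : I E w = ∅ := Finset.card_eq_zero.1 (by rw [← hE.2 w]; exact h0)
    rw [h1, h2]
    exact Set.bijOn_id _
  · obtain ⟨v, hv, hobs⟩ := hL V E (O E w).card hE (h4 w) hall ⟨w, rfl⟩
    refine ⟨v, ?_, ?_⟩
    · by_contra hvU
      rw [hout v hvU, Finset.card_empty] at hv
      exact h0 hv.symm
    · by_contra hg
      exact hobs (hH V E v hE hg)

theorem t_MAIN (hH : S_Hall) (hL : S_Loc) (hD : S_Deg) (hP : S_Lift) : S_Main := by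
  intro V _ U
  induction hn : U.card generalizing U with
  | zero =>
    intro E m _ _ _ hr
    have hU : U = ∅ := Finset.card_eq_zero.1 hn
    subst hU
    have h1 := hr (fun _ => 0) (by simp) (by simp)
    rw [Finset.sum_empty] at h1
    have h2 : m = 0 := by omega
    subst h2
    exact ⟨fun i => i.elim0, fun i => i.elim0, fun i => i.elim0⟩
  | succ n ih =>
    intro E m hE hU h4 hr
    have hne : U.Nonempty := by
      rw [← Finset.card_pos]
      omega
    obtain ⟨v, hvU, π, hb, hg⟩ := ex_good hH hL hE hU h4 hne
    obtain ⟨hE', hdeg⟩ := hD V E v π hE hb hg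
    set E' := E.filter (fun e => e.1 ≠ v ∧ e.2 ≠ v) ∪
      ((I E v).filter (fun x => π x ≠ x)).image (fun x => (x, π x)) with hE'def
    set L := (I E v).filter (fun x => π x = x) with hLdef
    have hUe : (U.erase v).card = n := by
      rw [Finset.card_erase_of_mem hvU, hn]
      rfl
    have harc : ∀ e ∈ E', e.1 ∈ U.erase v ∧ e.2 ∈ U.erase v := by
      intro e he
      rw [hE'def, Finset.mem_union] at he
      rcases he with he | he
      · obtain ⟨h1, h2, h3⟩ := Finset.mem_filter.1 he
        exact ⟨Finset.mem_erase.2 ⟨h2, (hU e h1).1⟩, Finset.mem_erase.2 ⟨h3, (hU e h1).2⟩⟩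
      · obtain ⟨x, hx, rfl⟩ := Finset.mem_image.1 he
        have hxI := (Finset.mem_filter.1 hx).1
        have h1 : (x, v) ∈ E := mem_I.1 hxI
        have h2 : (v, π x) ∈ E := mem_O.1 (hb.mapsTo hxI)
        refine ⟨Finset.mem_erase.2 ⟨?_, (hU _ h1).1⟩, Finset.mem_erase.2 ⟨?_, (hU _ h2).2⟩⟩
        · intro hxv
          simp only at hxv
          rw [hxv] at h1
          exact hE.1 v h1
        · intro hxv
          simp only at hxv
          rw [hxv] at h2
          exact hE.1 v h2
    have h4' : ∀ u, (O E' u).card ≤ 4 := by
      intro u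
      by_cases huv : u = v
      · have : O E' u = ∅ := by
          rw [Finset.eq_empty_iff_forall_notMem]
          intro y hy
          have := (harc _ (mem_O.1 hy)).1
          exact (Finset.mem_erase.1 this).1 huv
        rw [this, Finset.card_empty]
        omega
      · have h1 := hdeg u huv
        have h2 := h4 u
        omega
    have hOv : (O E v).card ≤ n := by
      rw [← hUe]
      refine Finset.card_le_card fun y hy => ?_
      have h1 := mem_O.1 hy
      refine Finset.mem_erase.2 ⟨?_, (hU _ h1).2⟩
      intro hyv
      rw [hyv] at h1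
      exact hE.1 v h1
    have key : Pack E' (m - L.card) := by
      refine ih (U.erase v) hUe E' (m - L.card) hE' harc h4' ?_
      intro r' hinj hlt
      have h1 := hr (Function.update r' v n) ?_ ?_
      · rw [← Finset.add_sum_erase U _ hvU, Function.update_self] at h1
        have h2 : ∑ u ∈ U.erase v, ((O E u).card - Function.update r' v n u) ≤
            ∑ u ∈ U.erase v, (((O E' u).card - r' u) + if u ∈ L then 1 else 0) := by
          refine Finset.sum_le_sum fun u hu => ?_
          have huv := (Finset.mem_erase.1 hu).1
          rw [Function.update_of_ne huv]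
          have h3 := hdeg u huv
          omega
        have h3 : ∑ u ∈ U.erase v, (if u ∈ L then 1 else 0) ≤ L.card := by
          rw [← Finset.card_filter]
          refine Finset.card_le_card fun u hu => (Finset.mem_filter.1 hu).2
        rw [Finset.sum_add_distrib] at h2
        have h5 : (O E v).card - n = 0 := by omega
        rw [h5] at h1
        omega
      · intro a ha b hb' hab
        rw [Finset.mem_coe] at ha hb'
        by_cases hav : a = v
        · by_cases hbv : b = v
          · rw [hav, hbv]
          · exfalso
            rw [hav, Function.update_self, Function.update_of_ne hbv] at hab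
            have := hlt b (Finset.mem_erase.2 ⟨hbv, hb'⟩)
            omega
        · by_cases hbv : b = v
          · exfalso
            rw [hbv, Function.update_self, Function.update_of_ne hav] at hab
            have := hlt a (Finset.mem_erase.2 ⟨hav, ha⟩)
            omega
          · rw [Function.update_of_ne hav, Function.update_of_ne hbv] at hab
            exact hinj (Finset.mem_coe.2 (Finset.mem_erase.2 ⟨hav, ha⟩))
              (Finset.mem_coe.2 (Finset.mem_erase.2 ⟨hbv, hb'⟩)) hab
      · intro u hu
        by_cases huv : u = v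
        · rw [huv, Function.update_self]
          omega
        · rw [Function.update_of_ne huv]
          have := hlt u (Finset.mem_erase.2 ⟨huv, hu⟩)
          omega
    have hh : Pack E (m - L.card + L.card) := hP V E v π (m - L.card) hE hb hg key
    exact pack_mono (by omega) hh

end Pool.Agent.N5.AM.Main
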